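import Pool.Agent.V11185.ModBlock

/-!
# MP_7230e4_co: a minimal 1-block over GF(7) with a modular copoint that is not tangential

The matroid has rank 5 and 26 points: seven points of the affine space `AG(4, 7)` and the 19
directions of their differences.
-/

set_option autoImplicit false

namespace Pool.Agent.Results.MP_7230e4_co.RankFive

open Set Module Submodule Pool.Agent.Helper236 Pool.Agent.V11185

/-- `M` is a `k`-block over `F`: a geometry representable over `F` with critical exponent larger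
than `k`. -/
def IsBlock (F : Type) [Field F] (k : ℕ) {α : Type} (M : Matroid α) : Prop :=
  M.Finite ∧ IsSimple M ∧ Representable F M ∧ (k : ℕ∞) < critExpNe M (Nat.card F)

/-- `M` is a minimal `k`-block over `F`: every single-element deletion has critical exponent at
most `k`. -/
def IsMinimalBlock (F : Type) [Field F] (k : ℕ) {α : Type} (M : Matroid α) : Prop :=
  IsBlock F k M ∧ ∀ x ∈ M.E, critExpNe (M.delete {x}) (Nat.card F) ≤ k

/-- For a representation `v` of `M` in `F ^ n`: the set `Y` has a tangent of codimension `k`, that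
is, a subspace `U` of rank `n - k` whose elements of `M` are exactly those of `Y`. -/
def HasTangent (F : Type) [Field F] (k : ℕ) {α : Type} (M : Matroid α) {n : ℕ}
    (v : α → (Fin n → F)) (Y : Set α) : Prop :=
  ∃ U : Submodule F (Fin n → F), finrank F U + k = n ∧ {x ∈ M.E | v x ∈ U} = Y

/-- `M` is a tangential `k`-block over `F`: it is a `k`-block, and for some representation of `M`
in `F ^ n`, where `n` is the rank of `M`, every non-empty flat of rank at most `n - k` has a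
tangent of codimension `k`. -/
def IsTangentialBlock (F : Type) [Field F] (k : ℕ) {α : Type} (M : Matroid α) : Prop :=
  IsBlock F k M ∧ ∃ v : α → (Fin (rk M M.E) → F), (∀ I ⊆ M.E, M.Indep I ↔ LinearIndepOn F v I) ∧
    ∀ Y, M.IsFlat Y → Y.Nonempty → rk M Y + k ≤ rk M M.E → HasTangent F k M v Y

instance fact7 : Fact (Nat.Prime 7) := ⟨by norm_num⟩

/-- the points: seven affine points, then the directions of their differences -/
def pt : Fin 26 → (Fin 5 → ZMod 7) :=
  ![![0, 0, 0, 0, 1],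
    ![0, 0, 1, 0, 1],
    ![0, 0, 0, 2, 1],
    ![3, 0, 0, 0, 1],
    ![0, 0, 4, 0, 1],
    ![6, 5, 3, 5, 1],
    ![0, 5, 1, 0, 1],
    ![1, 0, 0, 0, 0],
    ![0, 1, 0, 0, 0],
    ![0, 0, 1, 0, 0],
    ![0, 0, 0, 1, 0],
    ![1, 2, 4, 2, 0],
    ![0, 1, 3, 0, 0],
    ![0, 0, 1, 5, 0],
    ![1, 0, 2, 0, 0],
    ![1, 2, 5, 2, 0],
    ![1, 0, 0, 4, 0],
    ![0, 0, 1, 3, 0],
    ![1, 2, 4, 4, 0],
    ![0, 1, 3, 1, 0],
    ![1, 0, 1, 0, 0],
    ![1, 4, 1, 4, 0],
    ![1, 3, 2, 0, 0],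
    ![1, 2, 1, 2, 0],
    ![0, 1, 5, 0, 0],
    ![1, 0, 5, 2, 0]]

/-- the functionals of the tangent hyperplanes -/
def tan : Fin 26 → (Fin 5 → ZMod 7) :=
  ![![1, 1, 1, 1, 0],
    ![1, 1, 1, 1, 6],
    ![1, 1, 1, 1, 5],
    ![1, 1, 1, 1, 4],
    ![1, 1, 1, 1, 3],
    ![1, 1, 1, 1, 2],
    ![1, 1, 1, 1, 1],
    ![0, 1, 1, 5, 5],
    ![1, 0, 4, 3, 6],
    ![1, 3, 0, 1, 1],
    ![1, 5, 1, 0, 5],
    ![1, 5, 1, 3, 5],
    ![1, 1, 2, 2, 2],
    ![1, 2, 2, 1, 3],
    ![1, 1, 3, 1, 1],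
    ![1, 2, 2, 3, 3],
    ![1, 5, 4, 5, 1],
    ![1, 2, 5, 3, 5],
    ![1, 2, 2, 2, 1],
    ![1, 2, 5, 4, 3],
    ![1, 2, 6, 4, 3],
    ![1, 5, 4, 6, 1],
    ![1, 1, 5, 2, 5],
    ![1, 2, 5, 2, 5],
    ![1, 4, 2, 3, 3],
    ![1, 2, 5, 1, 3]]

/-- evaluation of the functional with the given coefficients -/
def ev (w x : Fin 5 → ZMod 7) : ZMod 7 :=
  w 0 * x 0 + w 1 * x 1 + w 2 * x 2 + w 3 * x 3 + w 4 * x 4

theorem fact_last : ∀ i : Fin 26, pt i 4 = if i.val < 7 then 1 else 0 := by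
  decide +kernel

theorem fact_ne_zero : ∀ i : Fin 26, pt i ≠ 0 := by
  decide +kernel

theorem fact_simple : ∀ i j : Fin 26, i ≠ j → ∀ c : ZMod 7, c • pt i ≠ pt j := by
  decide +kernel

theorem fact_diff : ∀ i j : Fin 26, i.val < 7 → j.val < 7 → i ≠ j →
    ∃ x : Fin 26, ¬ x.val < 7 ∧ ∃ c : ZMod 7, c ≠ 0 ∧ pt i - pt j = c • pt x := by
  decide +kernel

theorem fact_tangent : ∀ i : Fin 26, ∀ j : Fin 26, j ≠ i → ev (tan i) (pt j) ≠ 0 := by
  decide +kernel

/-- No hyperplane meets the point set exactly in the points 7 and 8. -/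
theorem fact_no_tangent : ∀ a b c : ZMod 7, ∃ i : Fin 26, i ≠ 7 ∧ i ≠ 8 ∧
    ev ![0, 0, a, b, c] (pt i) = 0 := by
  decide +kernel

/-- The points 7 and 8 form a flat. -/
theorem fact_line : ∀ i : Fin 26, i ≠ 7 → i ≠ 8 → ∃ w : Fin 5, 2 ≤ w.val ∧ pt i w ≠ 0 := by
  decide +kernel

theorem fact_pt7 : pt 7 = Pi.single 0 1 := by
  decide +kernel

theorem fact_pt8 : pt 8 = Pi.single 1 1 := by
  decide +kernel

/-- the linear functional with given coefficients -/
def evL (w : Fin 5 → ZMod 7) : (Fin 5 → ZMod 7) →ₗ[ZMod 7] ZMod 7 where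
  toFun := ev w
  map_add' x y := by simp only [ev, Pi.add_apply]; ring
  map_smul' d x := by simp only [ev, Pi.smul_apply, smul_eq_mul, RingHom.id_apply]; ring

theorem eq_ev (f : (Fin 5 → ZMod 7) →ₗ[ZMod 7] ZMod 7) (x : Fin 5 → ZMod 7) :
    f x = ev (fun i => f (Pi.single i 1)) x := by
  have hx : x = x 0 • Pi.single 0 1 + x 1 • Pi.single 1 1 + x 2 • Pi.single 2 1 +
      x 3 • Pi.single 3 1 + x 4 • Pi.single 4 1 := by
    ext i
    fin_cases i <;> simp
  conv_lhs => rw [hx]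
  simp only [map_add, map_smul, smul_eq_mul, ev]
  ring

/-- the matroid of rank five on 26 points -/
noncomputable def Mat : Matroid (Fin 26) := linMatroid (ZMod 7) pt univ (Set.toFinite _)

theorem Mat_E : Mat.E = univ := rfl

instance Mat_finite : Mat.Finite := ⟨Set.toFinite _⟩

theorem Mat_rep : Rep (ZMod 7) Mat pt := linMatroid_rep _ _ _

theorem Mat_simple : IsSimple Mat := by
  intro e _ f _
  rw [Mat_rep _ (subset_univ _)]
  by_cases hef : e = f
  · subst hef
    simpa using fact_ne_zero e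
  · rw [linearIndepOn_pair_iff _ hef (fact_ne_zero e)]
    exact fact_simple e f hef

/-- the set of points at infinity -/
def H : Set (Fin 26) := {i | ¬ i.val < 7}

theorem mem_compl {i : Fin 26} : i ∈ Mat.E \ H ↔ i.val < 7 := by
  rw [Mat_E, H]
  simp

theorem Mat_diff : ∀ e ∈ Mat.E \ H, ∀ f ∈ Mat.E \ H, e ≠ f → ∃ x ∈ H, ∃ c : ZMod 7, c ≠ 0 ∧
    pt e - pt f = c • pt x := by
  intro e he f hf hef
  rw [mem_compl] at he hf
  obtain ⟨x, hx, h⟩ := fact_diff e f he hf hef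
  exact ⟨x, hx, h⟩

theorem Mat_modular : IsModularHyperplane Mat H := by
  apply isModularHyperplane_of_diff Mat_rep (φ := evL ![0, 0, 0, 0, 1]) (subset_univ _) _ _ _
    Mat_diff
  · intro x hx
    have h1 := fact_last x
    rw [if_neg hx] at h1
    simpa [evL, ev] using h1
  · intro x hx
    rw [mem_compl] at hx
    have h1 := fact_last x
    rw [if_pos hx] at h1
    simpa [evL, ev] using h1
  · exact ⟨0, by rw [mem_compl]; decide⟩

theorem Mat_card : Nat.card (ZMod 7) ≤ (Mat.E \ H).ncard := by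
  have h1 : Mat.E \ H = ((Finset.univ.filter fun i : Fin 26 => i.val < 7 : Finset (Fin 26)) :
      Set (Fin 26)) := by
    ext i
    rw [mem_compl]
    simp
  rw [h1, Set.ncard_coe_finset, Nat.card_zmod]
  decide

theorem Mat_block (f : (Fin 5 → ZMod 7) →ₗ[ZMod 7] (Fin 1 → ZMod 7)) :
    ∃ e ∈ Mat.E, f (pt e) = 0 := by
  refine block_of_diff (H := H) ?_ Mat_card f
  intro e he f hf hef
  obtain ⟨x, _, h⟩ := Mat_diff e he f hf hef
  exact ⟨x, mem_univ _, h⟩

theorem Mat_isBlock : IsBlock (ZMod 7) 1 Mat := by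
  refine ⟨Mat_finite, Mat_simple, ⟨5, pt, Mat_rep⟩, ?_⟩
  rw [critExpNe_eq Mat_rep]
  exact (lt_critExp_iff Mat_rep 1).2 Mat_block

theorem Mat_minimal : IsMinimalBlock (ZMod 7) 1 Mat := by
  refine ⟨Mat_isBlock, ?_⟩
  intro x _
  rw [critExpNe_eq (Rep.delete Mat_rep _)]
  refine delete_critExp_le (k := 1) Mat_rep (f := toOne (evL (tan x))) ?_
  intro e _ he
  rw [Ne, toOne_eq_zero]
  exact fact_tangent x e he

/-- the flat with two elements -/
def Y : Set (Fin 26) := {7, 8}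

theorem Y_flat : Mat.IsFlat Y := by
  have h : Y = ⋂ w : {w : Fin 5 // 2 ≤ w.val},
      {x ∈ Mat.E | (LinearMap.proj w.1 : (Fin 5 → ZMod 7) →ₗ[ZMod 7] ZMod 7) (pt x) = 0} := by
    ext i
    simp only [mem_iInter, mem_ofPred_eq, LinearMap.proj_apply]
    constructor
    · rintro hi ⟨w, hw⟩
      refine ⟨mem_univ _, ?_⟩
      have hw0 : w ≠ 0 := by
        rintro rfl
        exact absurd hw (by decide)
      have hw1 : w ≠ 1 := by
        rintro rfl
        exact absurd hw (by decide)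
      rcases hi with rfl | rfl
      · rw [fact_pt7, Pi.single_eq_of_ne hw0]
      · rw [fact_pt8, Pi.single_eq_of_ne hw1]
    · intro hi
      by_contra hiY
      have h7 : i ≠ 7 := fun h => hiY (Or.inl h)
      have h8 : i ≠ 8 := fun h => hiY (Or.inr h)
      obtain ⟨w, hw, hw2⟩ := fact_line i h7 h8
      exact hw2 (hi ⟨w, hw⟩).2
  rw [h]
  have : Nonempty {w : Fin 5 // 2 ≤ w.val} := ⟨⟨2, le_rfl⟩⟩
  exact Matroid.IsFlat.iInter fun w => isFlat_zero Mat_rep _

theorem Y_rank : rk Mat Y = 2 := by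
  have hind : Mat.Indep Y := Mat_simple 7 (mem_univ _) 8 (mem_univ _)
  rw [rk, hind.eRk_eq_encard, Y, Set.encard_pair (by decide)]
  rfl

theorem Mat_rank : 3 ≤ rk Mat Mat.E := by
  have h1 := Mat_modular.2
  have h2 : 2 ≤ rk Mat H := by
    rw [← Y_rank, Mat_rep.rk_eq (subset_univ _), Mat_rep.rk_eq (subset_univ _)]
    apply Submodule.finrank_mono
    apply span_mono
    apply image_mono
    rintro i (rfl | rfl)
    · change ¬ (7 : Fin 26).val < 7
      decide
    · change ¬ (8 : Fin 26).val < 7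
      decide
  omega

/-- A tangent of codimension one in any representation gives a linear functional. -/
theorem contract_le {n : ℕ} {v : Fin 26 → (Fin n → ZMod 7)} (h : Rep (ZMod 7) Mat v)
    (hY : HasTangent (ZMod 7) 1 Mat v Y) :
    critExp (Mat.contract Y) (Nat.card (ZMod 7)) ≤ (1 : ℕ) := by
  obtain ⟨U, hU, hUY⟩ := hY
  have hq : finrank (ZMod 7) ((Fin n → ZMod 7) ⧸ U) = finrank (ZMod 7) (Fin 1 → ZMod 7) := by
    rw [Submodule.finrank_quotient, Module.finrank_fin_fun, Module.finrank_fin_fun]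
    omega
  let e : ((Fin n → ZMod 7) ⧸ U) ≃ₗ[ZMod 7] (Fin 1 → ZMod 7) := LinearEquiv.ofFinrankEq _ _ hq
  have h2 : Mat.contract Y = (Mat.contract Y).delete ∅ := by
    rw [Matroid.delete_empty]
  rw [h2, minor_critExp_le_iff h 1 Y ∅ (subset_univ _)]
  refine ⟨e.toLinearMap.comp U.mkQ, ?_, ?_⟩
  · intro c hc
    have h3 : c ∈ {x ∈ Mat.E | v x ∈ U} := by rwa [hUY]
    rw [LinearMap.comp_apply, Submodule.mkQ_apply, (Submodule.Quotient.mk_eq_zero U).2 h3.2,
      map_zero]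
  · intro c hc h0
    rw [LinearMap.comp_apply] at h0
    have h4 : U.mkQ (v c) = 0 := e.injective (by rw [map_zero]; exact h0)
    have h3 : c ∈ {x ∈ Mat.E | v x ∈ U} := ⟨mem_univ _, (Submodule.Quotient.mk_eq_zero U).1 h4⟩
    rw [hUY] at h3
    exact hc.1.2 h3

theorem not_contract_le : ¬ critExp (Mat.contract Y) (Nat.card (ZMod 7)) ≤ (1 : ℕ) := by
  have h2 : Mat.contract Y = (Mat.contract Y).delete ∅ := by
    rw [Matroid.delete_empty]
  rw [h2, minor_critExp_le_iff Mat_rep 1 Y ∅ (subset_univ _)]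
  rintro ⟨f, hf1, hf2⟩
  let g : (Fin 5 → ZMod 7) →ₗ[ZMod 7] ZMod 7 := (LinearMap.proj 0).comp f
  have hg : ∀ x, g x = 0 → f x = 0 := by
    intro x hx
    ext i
    rw [Subsingleton.elim i 0]
    exact hx
  have h7 : g (Pi.single 0 1) = 0 := by
    rw [← fact_pt7]
    change f (pt 7) 0 = 0
    rw [hf1 7 (Or.inl rfl)]
    rfl
  have h8 : g (Pi.single 1 1) = 0 := by
    rw [← fact_pt8]
    change f (pt 8) 0 = 0
    rw [hf1 8 (Or.inr rfl)]
    rfl
  obtain ⟨i, hi7, hi8, hi⟩ := fact_no_tangent (g (Pi.single 2 1)) (g (Pi.single 3 1))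
    (g (Pi.single 4 1))
  apply hf2 i
  · refine ⟨⟨mem_univ _, ?_⟩, by simp⟩
    rintro (h | h)
    · exact hi7 h
    · exact hi8 h
  apply hg
  rw [eq_ev g, ← hi]
  congr 1
  ext j
  fin_cases j
  · exact h7
  · exact h8
  · rfl
  · rfl
  · rfl

/-- **A minimal block with a modular copoint that is not tangential.** -/
theorem result : ∃ (F : Type) (_ : Field F) (_ : Finite F) (k : ℕ) (α : Type) (M : Matroid α),
    1 ≤ k ∧ IsMinimalBlock F k M ∧ (∃ X, IsModularHyperplane M X) ∧ ¬ IsTangentialBlock F k M := by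
  refine ⟨ZMod 7, inferInstance, inferInstance, 1, Fin 26, Mat, le_rfl, Mat_minimal,
    ⟨H, Mat_modular⟩, ?_⟩
  rintro ⟨-, v, hv, hT⟩
  apply not_contract_le
  refine contract_le hv (hT Y Y_flat ⟨7, Or.inl rfl⟩ ?_)
  rw [Y_rank]
  exact Mat_rank

end Pool.Agent.Results.MP_7230e4_co.RankFive
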